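import Mathlib

set_option autoImplicit false
set_option maxRecDepth 100000
open Finset

namespace Pool.Agent.H.MP_cc703c_co.A

/-- maximal faces; A0, A1, B1, B2, B3, B4, C, D1, D2, D3 are numbered 0 to 9. -/
def F : List (Finset (Fin 10)) :=
  [{0, 2, 3}, {0, 3, 4}, {0, 4, 2}, {1, 2, 3}, {1, 3, 5}, {1, 5, 4}, {1, 4, 2}, {6, 3, 4}, {6, 4,
  5}, {6, 5, 3}, {6, 0, 2}, {6, 0, 3}, {6, 0, 4}, {6, 1, 2}, {6, 1, 3}, {6, 1, 4}, {6, 1, 5}, {6,
  2, 3}, {6, 2, 4}, {7, 8, 4}, {8, 9, 2}, {9, 7, 3}, {2, 3, 9}, {3, 4, 7}, {4, 2, 8}, {0, 1}, {6,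
  7}, {6, 8}, {6, 9}]

def q : Fin 10 → List ℤ :=
  ![[2, 4, -3, -2], [3, 3, 3, 2], [4, -1, -4, -1], [0, 0, 3, 4], [0, -1, -3, 1], [1, 3, 0, 4],
  [-4, 3, -1, 2], [-4, 4, -1, 3], [4, -1, 2, 4], [-1, -1, 3, 0]]

noncomputable def C : List (List (List ℤ)) :=
  [[[0, 0, 0, 0, 0], [36, 6, -9, 20, -24], [10, 3, -2, 8, -8], [6, -12, 5, -14, 9], [662, -157,
  -77, -54, -125], [1494, -219, -215, 358, -639], [441, -63, -81, 115, -190], [-58, 12, 12, -14,
  25], [289, -6, -33, 89, -64], [203, 345, 42, 363, -323], [-37, 26, 14, 7, 25], [-73, 52, -8,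
  -25, 37], [15, 12, 5, 11, 13], [59, -8, -11, 16, -26], [85, -13, -15, 21, -37], [1818, -217,
  -357, 490, -809], [9199, -1252, -1750, 2415, -3831], [32, -5, -6, 8, -14], [-2, 1, 1, 0, 1],
  [1303, 91, 162, 224, -491], [189, -117, 27, -95, 74], [-5, 11, 3, -5, 5], [-67, 21, 23, -7, 22],
  [-300, 145, 71, -52, 114], [94, 14, 143, 4, -9], [14, -2, -3, 0, -1], [278, 43, -59, 47, -72],
  [1450, -145, -295, 319, -564], [87, 18, -50, -53, 21]], [[-36, -6, 9, -20, 24], [0, 0, 0, 0, 0],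
  [-2, -4, 7, 0, 9], [14, -5, -1, 2, -5], [44, -19, 1, 0, -11], [144, -51, -3, 32, -51], [177,
  -55, -15, 42, -66], [-27, 8, 6, -7, 12], [17, 7, -4, 5, -6], [341, 67, -132, -47, -50], [514,
  -84, -102, 128, -223], [25, -3, -6, 5, -10], [69, 46, -28, 27, -16], [260, -43, -50, 64, -112],
  [21, -3, -4, 5, -9], [919, -160, -176, 231, -402], [373, 48, -147, 2, -84], [250, -42, -48, 62,
  -109], [254, -41, -47, 64, -109], [131, -19, -15, 34, -44], [-244, -321, 135, -454, 437], [254,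
  287, -80, -162, 58], [-24, -63, 61, -40, 36], [-5, 8, 0, -1, 2], [-16, 3, 26, -10, 12], [0, -52,
  37, -4, 28], [323, 120, -148, -187, 148], [34, -3, -8, 4, -10], [-306, 451, 95, -113, 459]],
  [[-10, -3, 2, -8, 8], [2, 4, -7, 0, -9], [0, 0, 0, 0, 0], [-11, -4, 6, -9, 3], [86, -3, -15,
  -10, -27], [-7, 0, 2, -3, 0], [16, -5, -1, 2, -11], [-14, 3, 3, -4, 5], [70, 1, -7, 20, -17],
  [194, 57, -66, -47, -119], [-119, -11, 5, -43, 4], [16, -3, -6, 2, -10], [-16, 11, 4, -2, 14],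
  [85, -23, -22, 16, -49], [12, -3, -3, 2, -7], [85, -13, -15, 21, -37], [358, 67, -91, -70,
  -245], [-93, -48, -11, -53, -62], [-29, -2, 2, -10, 1], [34, 45, 4, -20, -90], [18, -86, 43,
  -121, 115], [-109, 283, -59, -328, -56], [6, -11, -1, -10, 3], [-114, 45, 29, -44, 11], [8, -1,
  -1, 2, -3], [-98, 16, 14, -28, 37], [32, 5, -8, 4, -10], [-170, 17, 22, -52, 48], [-81, 41, -5,
  -48, 19]], [[-6, 12, -5, 14, -9], [-14, 5, 1, -2, 5], [11, 4, -6, 9, -3], [0, 0, 0, 0, 0], [3,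
  16, -16, -1, 0], [-177, 104, -151, 52, 81], [-53, 37, -83, 33, 46], [-201, 57, 12, -25, 69],
  [53, 71, -106, 86, -2], [253, 16, -45, -23, -46], [5, 4, -2, 5, 3], [-83, 148, -98, 77, -37],
  [-44, 9, 9, -10, 21], [-125, 38, -58, -3, 97], [48, 19, -19, -16, 0], [1137, -158, -187, 288,
  -483], [228, 14, -135, 39, 9], [-137, 64, 36, 15, 23], [95, 17, -17, 45, 0], [397, -27, -109,
  144, -204], [135, -67, 77, -65, 50], [-151, 263, -35, -51, 76], [0, 1, 4, 0, 0], [-15, 78, -39,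
  61, -42], [10, -1, -2, 3, -4], [21, -1, -10, 4, 0], [538, 77, -157, 73, -120], [929, 4, 23, 314,
  -441], [-16, 32, 37, 13, 0]], [[-662, 157, 77, 54, 125], [-44, 19, -1, 0, 11], [-86, 3, 15, 10,
  27], [-3, -16, 16, 1, 0], [0, 0, 0, 0, 0], [-8, 1, -11, 6, 10], [-1, -1, -1, 1, 2], [-772, 175,
  229, 8, 187], [-134, 51, -211, 225, 179], [-10, 0, 2, 2, 1], [-639, 149, 88, 69, 211], [-588,
  53, 154, 116, 60], [-266, 105, 12, 47, 137], [-186, 22, -67, 25, 123], [69, 15, -15, -23, 0],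
  [-1252, 45, 11, 26, 503], [-4, -1, -1, 2, 2], [-352, 43, 48, 20, 73], [-139, 52, -25, 26, 91],
  [926, 65, 128, 152, -343], [-27, -9, 35, -29, 32], [118, 99, -3, -82, 32], [-77, -53, 140, -13,
  29], [-184, 163, 127, -52, 85], [375, -354, 344, 226, -15], [-8, 3, -7, -6, 19], [134, 72, 117,
  141, -117], [-658, 72, 414, 438, -117], [-8, 0, 3, 3, 0]], [[-1494, 219, 215, -358, 639], [-144,
  51, 3, -32, 51], [7, 0, -2, 3, 0], [177, -104, 151, -52, -81], [8, -1, 11, -6, -10], [0, 0, 0,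
  0, 0], [-13, -1, 7, -5, 5], [-294, 287, 275, -188, 5], [-2, 2, 4, -3, -3], [172, 291, 127, -195,
  -211], [189, 32, -143, 104, 76], [-1140, 657, -171, -272, 345], [-13, 17, -2, 4, 23], [5, 0,
  -39, 8, 44], [218, 286, -107, -291, 59], [-37, 15, 16, -18, -1], [-6, 9, -1, -6, 0], [-7407,
  1083, 1079, -1832, 3220], [3, 0, -5, 4, 4], [83, 116, 80, -35, -108], [167, -652, 623, -200,
  664], [-73, 164, 152, -127, -79], [1122, -219, 1023, -138, -193], [-54, 47, 35, -28, 5], [65,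
  -23, 24, 12, -5], [101, 50, -98, -29, 65], [8, -1, -8, 4, 5], [17, 60, 53, -72, -48], [-73, 44,
  5, -26, 4]], [[-441, 63, 81, -115, 190], [-177, 55, 15, -42, 66], [-16, 5, 1, -2, 11], [53, -37,
  83, -33, -46], [1, 1, 1, -1, -2], [13, 1, -7, 5, -5], [0, 0, 0, 0, 0], [-8, 16, 7, -5, 0], [31,
  16, -37, 24, 4], [946, 553, 489, -444, -951], [103, 19, -43, 41, 58], [-1098, 181, 177, -298,
  485], [74, 5, -17, 25, -16], [-5, 1, -1, -1, 4], [1, 1, 1, -1, -2], [41, 10, 13, -6, -46], [43,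
  0, -25, 8, 4], [-1676, 247, 259, -415, 713], [29, 32, -47, 40, 44], [273, 86, 125, -35, -253],
  [303, -154, 267, -164, 76], [145, 58, 78, -59, -132], [10, -5, 14, -5, -4], [26, 39, 14, -3,
  -21], [8, -1, -1, 2, -3], [129, 21, -62, 26, -42], [-3, 10, 22, -16, -21], [-214, 325, 710,
  -530, -604], [-29, 16, -19, 2, 26]], [[58, -12, -12, 14, -25], [27, -8, -6, 7, -12], [14, -3,
  -3, 4, -5], [201, -57, -12, 25, -69], [772, -175, -229, -8, -187], [294, -287, -275, 188, -5],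
  [8, -16, -7, 5, 0], [0, 0, 0, 0, 0], [-33, -13, -18, 1, 18], [-17, -5, -8, -5, 8], [298, -52,
  -59, 73, -128], [-25, -6, -28, -29, 28], [17, -3, -14, 15, 14], [66, -17, -52, 24, 23], [-15,
  -2, -36, -43, 36], [-35, -15, -22, 3, 22], [405, -126, -366, 11, 100], [-36, -17, -20, -4, 12],
  [-28, -13, -20, 4, 20], [34, -53, -54, 24, -16], [161, -123, 195, -80, 96], [-146, -66, -72,
  -14, 47], [-103, -7, 1, -31, 49], [-219, -194, -198, 9, 48], [-196, -19, -22, -32, 78], [251,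
  -62, -52, 44, -85], [14, 1, 0, 2, -4], [16, -6, -11, 1, -3], [171, 146, 107, -56, 18]], [[-289,
  6, 33, -89, 64], [-17, -7, 4, -5, 6], [-70, -1, 7, -20, 17], [-53, -71, 106, -86, 2], [134, -51,
  211, -225, -179], [2, -2, -4, 3, 3], [-31, -16, 37, -24, -4], [33, 13, 18, -1, -18], [0, 0, 0,
  0, 0], [-1, 3, 2, -11, -2], [-164, -1, 16, -52, 30], [-102, 18, -53, -141, 96], [11, 1, -2, 5,
  2], [13, -8, -31, 8, 28], [-126, 123, 58, -320, 62], [-5, -15, -34, 21, 34], [-2, 1, -1, -7, 1],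
  [-179, 0, 3, -52, 59], [5, 0, -2, 3, 2], [127, 16, 24, 17, -52], [-111, -52, 70, -87, -2], [157,
  47, 79, -27, -109], [-46, -3, 39, -26, 23], [29, 12, 23, -7, -27], [-83, -11, -13, -12, 34],
  [-238, -46, 34, -95, 104], [11, 1, -1, 0, -2], [-58, 20, 32, -36, 3], [17, 7, 9, -2, -9]],
  [[-203, -345, -42, -363, 323], [-341, -67, 132, 47, 50], [-194, -57, 66, 47, 119], [-253, -16,
  45, 23, 46], [10, 0, -2, -2, -1], [-172, -291, -127, 195, 211], [-946, -553, -489, 444, 951],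
  [17, 5, 8, 5, -8], [1, -3, -2, 11, 2], [0, 0, 0, 0, 0], [-1, 0, 0, 1, 1], [-64, -2, 38, 36,
  -11], [29, 17, 10, 47, 28], [-195, -22, -60, -25, 131], [44, 17, -28, -52, 28], [-1078, -65,
  -109, 9, 577], [22, -2, -24, -16, 13], [81, 22, 60, 53, -60], [62, 12, 27, 31, -32], [88, 12,
  31, 35, -46], [-147, -24, 1, 28, 44], [100, 3, -50, -52, 14], [-115, -13, 262, -15, 40], [186,
  41, 137, 134, -147], [2, 0, 1, 1, -1], [70, -58, -74, -149, 136], [19, 1, -20, -21, 12], [108,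
  19, 50, 54, -64], [59, 6, -34, -35, 16]], [[37, -26, -14, -7, -25], [-514, 84, 102, -128, 223],
  [119, 11, -5, 43, -4], [-5, -4, 2, -5, -3], [639, -149, -88, -69, -211], [-189, -32, 143, -104,
  -76], [-103, -19, 43, -41, -58], [-298, 52, 59, -73, 128], [164, 1, -16, 52, -30], [1, 0, 0, -1,
  -1], [0, 0, 0, 0, 0], [-94, -7, -30, -96, 30], [74, 11, -2, 28, 2], [-65, -10, 37, -22, -54],
  [27, -4, -6, 3, -11], [-82, 2, 22, -26, -1], [-112, 14, 64, -26, -25], [-24, 1, 23, -5, -23],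
  [29, -1, -2, 9, -9], [196, 31, 144, 88, -188], [-79, -359, 195, -436, 34], [243, -63, -180,
  -215, -32], [-1, -20, 18, -21, -15], [1292, 221, 292, 188, -468], [-272, 27, 44, -74, 88], [41,
  -6, -8, 9, -15], [-14, -8, -7, -19, -8], [-30, 3, -72, -218, 20], [131, -177, -201, -282,
  -259]], [[73, -52, 8, 25, -37], [-25, 3, 6, -5, 10], [-16, 3, 6, -2, 10], [83, -148, 98, -77,
  37], [588, -53, -154, -116, -60], [1140, -657, 171, 272, -345], [1098, -181, -177, 298, -485],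
  [25, 6, 28, 29, -28], [102, -18, 53, 141, -96], [64, 2, -38, -36, 11], [94, 7, 30, 96, -30], [0,
  0, 0, 0, 0], [42, 3, 14, 44, -14], [427, -68, -78, 107, -179], [9, -1, -2, 1, -3], [805, -112,
  -122, 195, -346], [784, -15, -261, -99, -80], [46, 9, 76, 86, -76], [18, -3, -3, 5, -8], [183,
  -24, 6, 95, -82], [60, -53, 22, -46, 43], [556, 7, -298, -300, 86], [97, -106, 0, -91, 44], [48,
  6, 7, 8, -18], [77, -11, -2, 24, -29], [47, -8, -8, 13, -20], [3, 0, 0, 1, -1], [-40, 4, 95,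
  109, -60], [3, 20, 14, -1, 17]], [[-15, -12, -5, -11, -13], [-69, -46, 28, -27, 16], [16, -11,
  -4, 2, -14], [44, -9, -9, 10, -21], [266, -105, -12, -47, -137], [13, -17, 2, -4, -23], [-74,
  -5, 17, -25, 16], [-17, 3, 14, -15, -14], [-11, -1, 2, -5, -2], [-29, -17, -10, -47, -28], [-74,
  -11, 2, -28, -2], [-42, -3, -14, -44, 14], [0, 0, 0, 0, 0], [60, -9, -11, 15, -24], [-1, 0, 0,
  -1, 0], [-109, -4, 34, -59, -34], [-4, -7, -5, -17, -13], [156, -27, -30, 38, -68], [39, -96,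
  -47, -22, -152], [64, 13, 18, 6, -28], [560, -1203, 1122, -596, 1068], [157, -200, -210, -293,
  -206], [-506, -707, 227, -938, 759], [228, -68, -42, 45, -135], [149, -15, -23, 41, -49], [211,
  -140, 2, -19, -2], [41, -16, -10, -1, -38], [11, 0, -4, -7, -3], [-33, 152, 14, -107, 246]],
  [[-59, 8, 11, -16, 26], [-260, 43, 50, -64, 112], [-85, 23, 22, -16, 49], [125, -38, 58, 3,
  -97], [186, -22, 67, -25, -123], [-5, 0, 39, -8, -44], [5, -1, 1, 1, -4], [-66, 17, 52, -24,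
  -23], [-13, 8, 31, -8, -28], [195, 22, 60, 25, -131], [65, 10, -37, 22, 54], [-427, 68, 78,
  -107, 179], [-60, 9, 11, -15, 24], [0, 0, 0, 0, 0], [13, 24, 41, -42, -41], [-47, 16, 83, -28,
  -83], [-13, 4, 22, -7, -22], [97, -10, 10, 29, -69], [9, 28, 41, 20, 0], [196, 31, 144, 88,
  -188], [81, 104, 253, 88, -108], [141, 76, 268, 65, -284], [-25, 4, 42, -7, -23], [333, -59, -9,
  65, -157], [-475, 74, 165, -114, 112], [37, -4, -10, 5, -5], [10, -1, -6, 2, 3], [243, 91, 122,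
  -79, -162], [282, 149, 196, -140, -207]], [[-85, 13, 15, -21, 37], [-21, 3, 4, -5, 9], [-12, 3,
  3, -2, 7], [-48, -19, 19, 16, 0], [-69, -15, 15, 23, 0], [-218, -286, 107, 291, -59], [-1, -1,
  -1, 1, 2], [15, 2, 36, 43, -36], [126, -123, -58, 320, -62], [-44, -17, 28, 52, -28], [-27, 4,
  6, -3, 11], [-9, 1, 2, -1, 3], [1, 0, 0, 1, 0], [-13, -24, -41, 42, 41], [0, 0, 0, 0, 0], [-27,
  -16, -9, 28, 9], [-62, -28, -1, 49, 1], [11, -1, 56, 71, -56], [-10, -3, 3, 11, 0], [113, -60,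
  -38, 105, -46], [-27, -9, 35, -29, 32], [175, 54, 6, -45, -10], [-11, -12, 70, 21, -13], [8, -1,
  1, 4, -5], [719, -104, -103, 182, -299], [31, -45, 14, 30, -14], [51, -30, -8, 59, -44], [176,
  -30, -29, 73, -68], [-84, 7, -7, 5, 69]], [[-1818, 217, 357, -490, 809], [-919, 160, 176, -231,
  402], [-85, 13, 15, -21, 37], [-1137, 158, 187, -288, 483], [1252, -45, -11, -26, -503], [37,
  -15, -16, 18, 1], [-41, -10, -13, 6, 46], [35, 15, 22, -3, -22], [5, 15, 34, -21, -34], [1078,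
  65, 109, -9, -577], [82, -2, -22, 26, 1], [-805, 112, 122, -195, 346], [109, 4, -34, 59, 34],
  [47, -16, -83, 28, 83], [27, 16, 9, -28, -9], [0, 0, 0, 0, 0], [3, 16, 33, -28, -33], [-77, 11,
  12, -19, 33], [-13, 2, 1, -2, 8], [332, 86, 117, 21, -152], [629, -528, 789, -332, 420], [166,
  27, 98, -47, -199], [-1561, 224, 259, -392, 667], [39, -4, 0, 7, -18], [312, -52, -64, 91,
  -103], [40, -17, -4, 5, 4], [71, -18, -52, 49, 31], [107, 6, 1, 0, -43], [-32, 2, -13, 1, 40]],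
  [[-9199, 1252, 1750, -2415, 3831], [-373, -48, 147, -2, 84], [-358, -67, 91, 70, 245], [-228,
  -14, 135, -39, -9], [4, 1, 1, -2, -2], [6, -9, 1, 6, 0], [-43, 0, 25, -8, -4], [-405, 126, 366,
  -11, -100], [2, -1, 1, 7, -1], [-22, 2, 24, 16, -13], [112, -14, -64, 26, 25], [-784, 15, 261,
  99, 80], [4, 7, 5, 17, 13], [13, -4, -22, 7, 22], [62, 28, 1, -49, -1], [-3, -16, -33, 28, 33],
  [0, 0, 0, 0, 0], [-14, 2, 15, 9, -7], [-7, 0, -3, 8, 12], [205, 31, 61, 37, -103], [-131, -20,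
  9, 36, 34], [41, 8, -3, -14, -5], [-138, -4, 160, 7, -39], [288, 38, 51, 42, -116], [-10, 10,
  43, 5, -32], [1, -1, -1, 1, 1], [22, -11, -28, 20, 19], [-141, 22, 56, -15, 23], [9, 2, 0, -3,
  -2]], [[-32, 5, 6, -8, 14], [-250, 42, 48, -62, 109], [93, 48, 11, 53, 62], [137, -64, -36, -15,
  -23], [352, -43, -48, -20, -73], [7407, -1083, -1079, 1832, -3220], [1676, -247, -259, 415,
  -713], [36, 17, 20, 4, -12], [179, 0, -3, 52, -59], [-81, -22, -60, -53, 60], [24, -1, -23, 5,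
  23], [-46, -9, -76, -86, 76], [-156, 27, 30, -38, 68], [-97, 10, -10, -29, 69], [-11, 1, -56,
  -71, 56], [77, -11, -12, 19, -33], [14, -2, -15, -9, 7], [0, 0, 0, 0, 0], [3, 0, 0, 1, -1], [60,
  3, 12, 20, -28], [-9, -13, -20, -14, 15], [-134, -413, -778, -390, 326], [-33, -49, -65, -53,
  48], [132, -1, 12, 36, -60], [196, 3, 121, 39, -69], [-71, 10, 10, -19, 33], [-4, -2, -5, -3,
  4], [32, -3, -4, 8, -12], [9, 25, 24, 3, 11]], [[2, -1, -1, 0, -1], [-254, 41, 47, -64, 109],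
  [29, 2, -2, 10, -1], [-95, -17, 17, -45, 0], [139, -52, 25, -26, -91], [-3, 0, 5, -4, -4], [-29,
  -32, 47, -40, -44], [28, 13, 20, -4, -20], [-5, 0, 2, -3, -2], [-62, -12, -27, -31, 32], [-29,
  1, 2, -9, 9], [-18, 3, 3, -5, 8], [-39, 96, 47, 22, 152], [-9, -28, -41, -20, 0], [10, 3, -3,
  -11, 0], [13, -2, -1, 2, -8], [7, 0, 3, -8, -12], [-3, 0, 0, -1, 1], [0, 0, 0, 0, 0], [172, 49,
  67, 8, -81], [-114, -138, 42, -145, -128], [172, -5, -148, -140, 60], [-4, -15, -8, -14, 0],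
  [140, 1, 20, 12, -84], [8, -1, -1, 2, -3], [367, -77, -127, 47, -83], [8, -3, -4, 0, -4], [20,
  28, 41, -23, -27], [-93, 26, 7, -36, 70]], [[-1303, -91, -162, -224, 491], [-131, 19, 15, -34,
  44], [-34, -45, -4, 20, 90], [-397, 27, 109, -144, 204], [-926, -65, -128, -152, 343], [-83,
  -116, -80, 35, 108], [-273, -86, -125, 35, 253], [-34, 53, 54, -24, 16], [-127, -16, -24, -17,
  52], [-88, -12, -31, -35, 46], [-196, -31, -144, -88, 188], [-183, 24, -6, -95, 82], [-64, -13,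
  -18, -6, 28], [-196, -31, -144, -88, 188], [-113, 60, 38, -105, 46], [-332, -86, -117, -21,
  152], [-205, -31, -61, -37, 103], [-60, -3, -12, -20, 28], [-172, -49, -67, -8, 81], [0, 0, 0,
  0, 0], [-474, -370, -384, -345, 565], [108, 84, -55, -235, 71], [-456, -3, -52, -125, 194],
  [-73, -5, -10, -12, 27], [-19, 1, 3, -5, 7], [1607, -590, -605, 591, -78], [-40, 3, -2, -12,
  16], [-24, 1, 0, -6, 8], [215, 82, 85, -17, -81]], [[-189, 117, -27, 95, -74], [244, 321, -135,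
  454, -437], [-18, 86, -43, 121, -115], [-135, 67, -77, 65, -50], [27, 9, -35, 29, -32], [-167,
  652, -623, 200, -664], [-303, 154, -267, 164, -76], [-161, 123, -195, 80, -96], [111, 52, -70,
  87, 2], [147, 24, -1, -28, -44], [79, 359, -195, 436, -34], [-60, 53, -22, 46, -43], [-560,
  1203, -1122, 596, -1068], [-81, -104, -253, -88, 108], [27, 9, -35, 29, -32], [-629, 528, -789,
  332, -420], [131, 20, -9, -36, -34], [9, 13, 20, 14, -15], [114, 138, -42, 145, 128], [474, 370,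
  384, 345, -565], [0, 0, 0, 0, 0], [38, 157, 241, 120, -144], [-153, 103, -7, 83, -66], [241,
  -16, -215, 107, -146], [77, 22, 39, 45, -54], [105, 97, -101, 97, -194], [157, 152, 39, 96, 88],
  [9, 4, 1, 4, -8], [-17, 12, -89, -20, 24]], [[5, -11, -3, 5, -5], [-254, -287, 80, 162, -58],
  [109, -283, 59, 328, 56], [151, -263, 35, 51, -76], [-118, -99, 3, 82, -32], [73, -164, -152,
  127, 79], [-145, -58, -78, 59, 132], [146, 66, 72, 14, -47], [-157, -47, -79, 27, 109], [-100,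
  -3, 50, 52, -14], [-243, 63, 180, 215, 32], [-556, -7, 298, 300, -86], [-157, 200, 210, 293,
  206], [-141, -76, -268, -65, 284], [-175, -54, -6, 45, 10], [-166, -27, -98, 47, 199], [-41, -8,
  3, 14, 5], [134, 413, 778, 390, -326], [-172, 5, 148, 140, -60], [-108, -84, 55, 235, -71],
  [-38, -157, -241, -120, 144], [0, 0, 0, 0, 0], [-4, -6, 2, 0, 1], [-20, -1, 10, 12, -4], [76,
  -5, 16, 30, -36], [-7, -37, 17, 9, 0], [-43, 12, 44, 43, -14], [-102, -27, -24, 18, 37], [-43,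
  2, 24, 23, -4]], [[67, -21, -23, 7, -22], [24, 63, -61, 40, -36], [-6, 11, 1, 10, -3], [0, -1,
  -4, 0, 0], [77, 53, -140, 13, -29], [-1122, 219, -1023, 138, 193], [-10, 5, -14, 5, 4], [103, 7,
  -1, 31, -49], [46, 3, -39, 26, -23], [115, 13, -262, 15, -40], [1, 20, -18, 21, 15], [-97, 106,
  0, 91, -44], [506, 707, -227, 938, -759], [25, -4, -42, 7, 23], [11, 12, -70, -21, 13], [1561,
  -224, -259, 392, -667], [138, 4, -160, -7, 39], [33, 49, 65, 53, -48], [4, 15, 8, 14, 0], [456,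
  3, 52, 125, -194], [153, -103, 7, -83, 66], [4, 6, -2, 0, -1], [0, 0, 0, 0, 0], [238, 126, 180,
  138, -163], [468, 60, 433, 109, -161], [59, -25, -7, -21, 36], [140, -34, -162, 1, 49], [-21,
  -62, -133, -55, 54], [-12, 1, -70, -19, 69]], [[300, -145, -71, 52, -114], [5, -8, 0, 1, -2],
  [114, -45, -29, 44, -11], [15, -78, 39, -61, 42], [184, -163, -127, 52, -85], [54, -47, -35, 28,
  -5], [-26, -39, -14, 3, 21], [219, 194, 198, -9, -48], [-29, -12, -23, 7, 27], [-186, -41, -137,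
  -134, 147], [-1292, -221, -292, -188, 468], [-48, -6, -7, -8, 18], [-228, 68, 42, -45, 135],
  [-333, 59, 9, -65, 157], [-8, 1, -1, -4, 5], [-39, 4, 0, -7, 18], [-288, -38, -51, -42, 116],
  [-132, 1, -12, -36, 60], [-140, -1, -20, -12, 84], [73, 5, 10, 12, -27], [-241, 16, 215, -107,
  146], [20, 1, -10, -12, 4], [-238, -126, -180, -138, 163], [0, 0, 0, 0, 0], [382, -59, 4, 90,
  -108], [-101, -6, -64, -87, 116], [-11, -1, -3, -1, 6], [-167, -38, -51, -17, 72], [-1, 9, 3, 1,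
  12]], [[-94, -14, -143, -4, 9], [16, -3, -26, 10, -12], [-8, 1, 1, -2, 3], [-10, 1, 2, -3, 4],
  [-375, 354, -344, -226, 15], [-65, 23, -24, -12, 5], [-8, 1, 1, -2, 3], [196, 19, 22, 32, -78],
  [83, 11, 13, 12, -34], [-2, 0, -1, -1, 1], [272, -27, -44, 74, -88], [-77, 11, 2, -24, 29],
  [-149, 15, 23, -41, 49], [475, -74, -165, 114, -112], [-719, 104, 103, -182, 299], [-312, 52,
  64, -91, 103], [10, -10, -43, -5, 32], [-196, -3, -121, -39, 69], [-8, 1, 1, -2, 3], [19, -1,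
  -3, 5, -7], [-77, -22, -39, -45, 54], [-76, 5, -16, -30, 36], [-468, -60, -433, -109, 161],
  [-382, 59, -4, -90, 108], [0, 0, 0, 0, 0], [397, -196, -382, -155, 186], [12, -3, -14, 0, 4],
  [-25, 70, 59, -50, -24], [-385, -21, -486, -91, 79]], [[-14, 2, 3, 0, 1], [0, 52, -37, 4, -28],
  [98, -16, -14, 28, -37], [-21, 1, 10, -4, 0], [8, -3, 7, 6, -19], [-101, -50, 98, 29, -65],
  [-129, -21, 62, -26, 42], [-251, 62, 52, -44, 85], [238, 46, -34, 95, -104], [-70, 58, 74, 149,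
  -136], [-41, 6, 8, -9, 15], [-47, 8, 8, -13, 20], [-211, 140, -2, 19, 2], [-37, 4, 10, -5, 5],
  [-31, 45, -14, -30, 14], [-40, 17, 4, -5, -4], [-1, 1, 1, -1, -1], [71, -10, -10, 19, -33],
  [-367, 77, 127, -47, 83], [-1607, 590, 605, -591, 78], [-105, -97, 101, -97, 194], [7, 37, -17,
  -9, 0], [-59, 25, 7, 21, -36], [101, 6, 64, 87, -116], [-397, 196, 382, 155, -186], [0, 0, 0, 0,
  0], [31, 4, -6, 1, -2], [160, 186, -92, 230, -465], [157, 44, -70, -65, 78]], [[-278, -43, 59,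
  -47, 72], [-323, -120, 148, 187, -148], [-32, -5, 8, -4, 10], [-538, -77, 157, -73, 120], [-134,
  -72, -117, -141, 117], [-8, 1, 8, -4, -5], [3, -10, -22, 16, 21], [-14, -1, 0, -2, 4], [-11, -1,
  1, 0, 2], [-19, -1, 20, 21, -12], [14, 8, 7, 19, 8], [-3, 0, 0, -1, 1], [-41, 16, 10, 1, 38],
  [-10, 1, 6, -2, -3], [-51, 30, 8, -59, 44], [-71, 18, 52, -49, -31], [-22, 11, 28, -20, -19],
  [4, 2, 5, 3, -4], [-8, 3, 4, 0, 4], [40, -3, 2, 12, -16], [-157, -152, -39, -96, -88], [43, -12,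
  -44, -43, 14], [-140, 34, 162, -1, -49], [11, 1, 3, 1, -6], [-12, 3, 14, 0, -4], [-31, -4, 6,
  -1, 2], [0, 0, 0, 0, 0], [-87, 8, -72, -177, 79], [-63, 0, -14, 3, 54]], [[-1450, 145, 295,
  -319, 564], [-34, 3, 8, -4, 10], [170, -17, -22, 52, -48], [-929, -4, -23, -314, 441], [658,
  -72, -414, -438, 117], [-17, -60, -53, 72, 48], [214, -325, -710, 530, 604], [-16, 6, 11, -1,
  3], [58, -20, -32, 36, -3], [-108, -19, -50, -54, 64], [30, -3, 72, 218, -20], [40, -4, -95,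
  -109, 60], [-11, 0, 4, 7, 3], [-243, -91, -122, 79, 162], [-176, 30, 29, -73, 68], [-107, -6,
  -1, 0, 43], [141, -22, -56, 15, -23], [-32, 3, 4, -8, 12], [-20, -28, -41, 23, 27], [24, -1, 0,
  6, -8], [-9, -4, -1, -4, 8], [102, 27, 24, -18, -37], [21, 62, 133, 55, -54], [167, 38, 51, 17,
  -72], [25, -70, -59, 50, 24], [-160, -186, 92, -230, 465], [87, -8, 72, 177, -79], [0, 0, 0, 0,
  0], [-51, 28, 61, 20, 0]], [[-87, -18, 50, 53, -21], [306, -451, -95, 113, -459], [81, -41, 5,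
  48, -19], [16, -32, -37, -13, 0], [8, 0, -3, -3, 0], [73, -44, -5, 26, -4], [29, -16, 19, -2,
  -26], [-171, -146, -107, 56, -18], [-17, -7, -9, 2, 9], [-59, -6, 34, 35, -16], [-131, 177, 201,
  282, 259], [-3, -20, -14, 1, -17], [33, -152, -14, 107, -246], [-282, -149, -196, 140, 207],
  [84, -7, 7, -5, -69], [32, -2, 13, -1, -40], [-9, -2, 0, 3, 2], [-9, -25, -24, -3, -11], [93,
  -26, -7, 36, -70], [-215, -82, -85, 17, 81], [17, -12, 89, 20, -24], [43, -2, -24, -23, 4], [12,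
  -1, 70, 19, -69], [1, -9, -3, -1, -12], [385, 21, 486, 91, -79], [-157, -44, 70, 65, -78], [63,
  0, 14, -3, -54], [51, -28, -61, -20, 0], [0, 0, 0, 0, 0]]]

noncomputable def E : List (List (List ℤ)) :=
  [[[12, -4, -1, 0, -3], [], [45, 5, -13, 17, -24], [6, -1, 0, 0, 2], [], [], [], [], [], []],
  [[-9, -8, 12, -5, 6], [], [], [-2, 2, 1, 0, 3], [75, 75, -66, -1, -18], [], [], [], [], []],
  [[-26, -7, 2, -12, -8], [], [-20, 1, 2, -6, 4], [], [-47, -55, -17, -55, -30], [], [], [], [],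
  []], [[], [15, -2, 1, 3, -6], [105, 53, -109, 77, -84], [-123, -14, 73, -90, 108], [], [], [],
  [], [], []], [[], [-6, -6, 24, 22, -15], [], [159, 75, -90, -44, 9], [], [-24, 3, 5, -8, 12],
  [], [], [], []], [[], [7, -3, 0, 2, -1], [], [], [-33, 18, -35, 8, 30], [-40, 20, 43, -35, -22],
  [], [], [], []], [[], [-7, 3, 6, -2, 7], [-5, 1, 2, -2, 1], [], [-102, 9, 32, -35, 42], [], [],
  [], [], []], [[], [], [], [-17, 8, 6, -3, 14], [-64, 79, 56, -72, 70], [], [9, -6, 3, 1, -3],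
  [], [], []], [[], [], [], [], [-23, 16, 29, -40, -20], [5, 10, 17, -8, -12], [9, -6, 3, 1, -3],
  [], [], []], [[], [], [], [-20, -3, 9, 17, -1], [], [33, 7, -32, -43, 24], [9, -6, 3, 1, -3],
  [], [], []], [[46, 1, 20, 18, -42], [], [-5, -14, -10, -13, -17], [], [], [], [4, -5, -1, -4,
  1], [], [], []], [[8, 1, 0, 0, -2], [], [], [23, 1, 0, 11, -4], [], [], [3, -3, 0, -1, 0], [],
  [], []], [[-19, 16, 14, -5, 18], [], [], [], [-13, 16, 2, -11, 30], [], [5, -4, 1, 1, -1], [],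
  [], []], [[], [-81, 13, 56, -15, -25], [-91, 36, -72, -63, 194], [], [], [], [28, -11, 17, -4,
  -17], [], [], []], [[], [-10, 12, 6, -14, 13], [], [-15, 4, 0, -7, 12], [], [], [3, 0, 0, -1,
  0], [], [], []], [[], [17, 2, 1, 4, -4], [], [], [33, 8, -1, -14, -6], [], [2, -1, 1, 0, -1],
  [], [], []], [[], [-19, 11, 28, -17, -19], [], [], [], [13, 0, -7, 0, 4], [2, -1, 1, 0, -1], [],
  [], []], [[], [], [36, -7, -12, 4, -12], [-25, -5, -13, -12, 16], [], [], [6, 0, 1, 2, -3], [],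
  [], []], [[], [], [2, 2, 1, 1, 2], [], [94, -19, -26, 20, -36], [], [20, -7, 13, -2, -13], [],
  [], []], [[], [], [], [], [7, 10, 7, -14, -3], [], [], [9, 1, 3, 1, -3], [-53, -2, -6, -9, 20],
  []], [[], [], [-15, 5, -17, 1, -6], [], [], [], [], [], [-65, 19, -39, 15, -10], [15, -7, 1, -5,
  6]], [[], [], [], [69, 36, 6, -9, 14], [], [], [], [-11, -44, -60, -31, 26], [], [-25, 3, 20,
  19, -8]], [[], [], [1, 8, -4, 1, -1], [3, -1, 1, -1, 2], [], [], [], [], [], [9, 4, -2, 9, -9]],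
  [[], [], [], [21, 1, 2, 4, -7], [16, -11, -12, 0, -4], [], [], [9, -6, 3, 1, -3], [], []], [[],
  [], [31, 0, 3, 6, -10], [], [29, -14, -13, -5, 6], [], [], [], [14, -1, -2, 4, -4], []], [[4,
  34, -16, -32, 19], [15, -9, 3, 7, -6], [], [], [], [], [], [], [], []], [[], [], [], [], [], [],
  [15, -1, -2, 5, -2], [-16, 13, 20, 0, 4], [], []], [[], [], [], [], [], [], [24, 7, 20, 8, -12],
  [], [-14, 1, 3, 1, 5], []], [[], [], [], [], [], [], [50, 0, -28, -26, 7], [], [], [3, -1, -3,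
  -2, 0]]]

def ev (u : List ℤ) (v : Fin 10) : ℤ := u.getD 0 0 + (u.getD 1 0 * (q v).getD 0 0 +
  u.getD 2 0 * (q v).getD 1 0 + u.getD 3 0 * (q v).getD 2 0 + u.getD 4 0 * (q v).getD 3 0)

theorem h0 : ∀ i < 29, ∀ j < 29, ∀ v ∈ F.getD j ∅, ev ((C.getD i []).getD j []) v ≤ 0 := by
  decide +kernel

theorem h1 : ∀ i < 29, ∀ j < 29, ∀ v ∈ F.getD i ∅, 0 ≤ ev ((C.getD i []).getD j []) v ∧
    (ev ((C.getD i []).getD j []) v = 0 → v ∈ F.getD j ∅) := by decide +kernel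

theorem h2 : ∀ i < 29, ∀ v ∈ F.getD i ∅, 0 < ev ((E.getD i []).getD v []) v ∧
    ∀ w ∈ F.getD i ∅, w ≠ v → ev ((E.getD i []).getD v []) w = 0 := by decide +kernel

noncomputable def p (v : Fin 10) : EuclideanSpace ℝ (Fin 4) :=
  WithLp.toLp 2 fun k => ((q v).getD k 0 : ℤ)

theorem lin (u : List ℤ) : ∃ (l : EuclideanSpace ℝ (Fin 4) →ₗ[ℝ] ℝ) (c : ℝ), ∀ v, l (p v) = c + ev u v :=
  ⟨∑ k : Fin 4, ((u.getD (k + 1) 0 : ℤ) : ℝ) • (EuclideanSpace.proj k).toLinearMap, -u.getD 0 0,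
    fun v => by simp [ev, p, Fin.sum_univ_four]⟩

variable {V : Type} [AddCommGroup V] [Module ℝ V] {ι : Type} [DecidableEq ι]

theorem sep (p : ι → V) (l : V →ₗ[ℝ] ℝ) (c : ℝ) {A B T : Finset ι}
    (a : ∀ v ∈ A, c ≤ l (p v) ∧ (l (p v) = c → v ∈ T)) (b : ∀ v ∈ B, l (p v) ≤ c) {x : V}
    (h : x ∈ convexHull ℝ (p '' A)) (k : x ∈ convexHull ℝ (p '' B)) :
    x ∈ convexHull ℝ (p '' ↑(A ∩ T)) := by
  have := convexHull_min (𝕜 := ℝ) (s := p '' A)
    (t := {y | c ≤ l y ∧ (l y = c → y ∈ convexHull ℝ (p '' ↑(A ∩ T)))}) (by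
      rintro _ ⟨w, b, rfl⟩
      exact ⟨(a w b).1, fun t => subset_convexHull _ _ ⟨w, by simp [(a w b).2 t, show w ∈ A from b],
        rfl⟩⟩) (by
      intro x hx y hy s t s0 t0 st
      obtain rfl : t = 1 - s := by linarith
      simp only [Set.mem_ofPred_eq, map_add, map_smul, smul_eq_mul]
      refine ⟨by nlinarith [hx.1, hy.1], fun z => ?_⟩
      rcases s0.eq_or_lt with rfl | s1
      · simpa using hy.2 (by simpa using z)
      rcases t0.eq_or_lt with t1 | t1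
      · obtain rfl : s = 1 := by linarith
        simpa using hx.2 (by simpa using z)
      · exact convex_convexHull ℝ _ (hx.2 (by nlinarith [hx.1, hy.1]))
          (hy.2 (by nlinarith [hx.1, hy.1])) s0 t0 st) h
  exact this.2 (le_antisymm (convexHull_min (t := {y | l y ≤ c}) (by
    rintro _ ⟨w, x, rfl⟩; exact b w x) (convex_halfSpace_le l.isLinear _) k) this.1)

theorem idx {σ : Finset (Fin 10)} (h : σ ∈ F) : ∃ i < 29, F.getD i ∅ = σ := by
  obtain ⟨i, a, rfl⟩ := List.getElem_of_mem h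
  exact ⟨i, a, List.getD_eq_getElem _ _ a⟩

theorem er {σ : Finset (Fin 10)} (h : σ ∈ F) : ∃ (l : Fin 10 → EuclideanSpace ℝ (Fin 4) →ₗ[ℝ] ℝ)
    (c : Fin 10 → ℝ), ∀ v ∈ σ, c v < l v (p v) ∧ ∀ w ∈ σ, w ≠ v → l v (p w) = c v := by
  obtain ⟨i, a, rfl⟩ := idx h
  choose l c e using lin
  exact ⟨fun v => l ((E.getD i []).getD v []), fun v => c ((E.getD i []).getD v []), fun v b =>
    ⟨by simpa [e] using (h2 i a v b).1, fun w x y => by simp only [e, (h2 i a v b).2 w x y]; simp⟩⟩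

theorem ind {σ τ : Finset (Fin 10)} (h : σ ∈ F) (s : τ ⊆ σ) :
    AffineIndependent ℝ fun v : τ => p v := by
  obtain ⟨l, c, e⟩ := er h
  refine affineIndependent_iff.2 fun t w a b v hv => ?_
  have := congrArg (l v) b
  simp only [map_sum, map_smul, smul_eq_mul, map_zero] at this
  have k : ∑ x ∈ t, w x * (l v (p x) - c v) = 0 := by
    simp only [mul_sub, sum_sub_distrib, this, ← sum_mul, a]
    simp
  rw [sum_eq_single v (fun x _ y => by
    rw [(e v (s v.2)).2 x (s x.2) fun z => y (Subtype.ext z)]; simp) (fun x => absurd hv x)] at k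
  exact (mul_eq_zero.1 k).resolve_right (sub_ne_zero.2 (e v (s v.2)).1.ne')

theorem meet {σ τ A B : Finset (Fin 10)} (h : σ ∈ F) (k : τ ∈ F) (a : A ⊆ σ) (b : B ⊆ τ) :
    convexHull ℝ (p '' A) ∩ convexHull ℝ (p '' B) = convexHull ℝ (p '' ↑(A ∩ B)) := by
  refine Set.Subset.antisymm (fun x ⟨x1, x2⟩ => ?_) (Set.subset_inter
    (convexHull_mono (Set.image_mono (by simp))) (convexHull_mono (Set.image_mono (by simp))))
  obtain ⟨l, c, e⟩ := er h
  obtain ⟨i, i1, rfl⟩ := idx h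
  obtain ⟨j, j1, rfl⟩ := idx k
  obtain ⟨l', c', e'⟩ := lin ((C.getD j []).getD i [])
  have x3 := sep p l' c' (T := F.getD i ∅) (fun v t => ⟨by simpa [e'] using (h1 j j1 i i1 v (b t)).1,
    fun y => (h1 j j1 i i1 v (b t)).2 (by simpa [e'] using y)⟩)
    (fun v t => by simpa [e'] using h0 j j1 i i1 v (a t)) x2 x1
  have s : ∀ v ∈ F.getD i ∅, ∀ w ∈ A \ B, c w ≤ l w (p v) := fun v t w y => by
    by_cases d : v = w
    · exact d ▸ (e v t).1.le
    · exact ((e w (a (mem_sdiff.1 y).1)).2 v t d).ge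
  refine sep p (∑ w ∈ A \ B, l w) (∑ w ∈ A \ B, c w) (fun v t => ?_) (fun v t => ?_) x1 x3
  · rw [LinearMap.sum_apply]
    refine ⟨sum_le_sum (s v (a t)), fun y => by_contra fun d => ?_⟩
    exact (sum_lt_sum (s v (a t)) ⟨v, mem_sdiff.2 ⟨t, d⟩, (e v (a t)).1⟩).ne' y
  · rw [LinearMap.sum_apply]
    exact sum_le_sum fun w y => ((e w (a (mem_sdiff.1 y).1)).2 v (mem_inter.1 t).2
      fun d => (mem_sdiff.1 y).2 (d ▸ (mem_inter.1 t).1)).le

end Pool.Agent.H.MP_cc703c_co.A
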